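import Pool.Agent.Q151.Mackey.Main

/-!
# MP_44d3b9_gt: there is no metrizable precompact Mackey group topology on `ℤ`
-/

set_option autoImplicit false

namespace Pool.Agent.Results.MP_44d3b9_gt.NoMackeyT2

open Pool.Agent.Q151.Mackey Set

/-- `τ` is a Mackey topology among the Hausdorff group topologies: it is a Hausdorff locally
quasi-convex group topology which is finer than every Hausdorff locally quasi-convex group
topology with the same characters (`τ ≤ σ` means: `τ` is finer than `σ`). -/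
def IsMackey (τ : TopologicalSpace ℤ) : Prop :=
  @IsTopologicalAddGroup ℤ τ _ ∧ @T2Space ℤ τ ∧ LocallyQuasiConvex τ ∧
    ∀ σ : TopologicalSpace ℤ, @IsTopologicalAddGroup ℤ σ _ → @T2Space ℤ σ →
      LocallyQuasiConvex σ → Chars σ = Chars τ → τ ≤ σ

/-- There is no metrizable precompact Mackey group topology on `ℤ`; in particular there is none
without proper open subgroups. -/
theorem result :
    (¬ ∃ τ : TopologicalSpace ℤ, @IsTopologicalAddGroup ℤ τ _ ∧
      @TopologicalSpace.MetrizableSpace ℤ τ ∧ Precompact τ ∧ IsMackey τ) ∧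
    ¬ ∃ τ : TopologicalSpace ℤ, @IsTopologicalAddGroup ℤ τ _ ∧
      @TopologicalSpace.MetrizableSpace ℤ τ ∧ Precompact τ ∧ IsMackey τ ∧
      ∀ K : AddSubgroup ℤ, K ≠ ⊤ → ¬ @IsOpen ℤ τ (K : Set ℤ) := by
  have h1 : ¬ ∃ τ : TopologicalSpace ℤ, @IsTopologicalAddGroup ℤ τ _ ∧
      @TopologicalSpace.MetrizableSpace ℤ τ ∧ Precompact τ ∧ IsMackey τ := by
    rintro ⟨τ, hg, hm, hp, -, hT, hl, hM⟩
    have hfc : (@nhds ℤ τ 0).IsCountablyGenerated := by
      let := τ
      have := hm
      infer_instance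
    obtain ⟨σ, hσ, hσT, hσl, hc, hn⟩ := exists_finer τ hg hT hfc hp hl
    exact hn (hM σ hσ hσT hσl hc)
  exact ⟨h1, fun ⟨τ, hg, hm, hp, hM, _⟩ => h1 ⟨τ, hg, hm, hp, hM⟩⟩

end Pool.Agent.Results.MP_44d3b9_gt.NoMackeyT2
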